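import Pool.Agent.H752.PL.Stubs
import Pool.Agent.H620R2.Gauge.C

/-! # Enumerating the languages in `PSPACE` (task L2, helper991; a port of `exists_espace` in
`Pool.Agent.H752.GE.G10`) -/

set_option autoImplicit false

namespace Pool.Agent.H752.PL

open Pool.Agent.NPC Pool.Agent.H620R2.Gauge Finset H568R2 Pool.Agent.H752.GE Filter

theorem t_vp : St_vp := by
  obtain ⟨g, hg⟩ := CC.exists_enum
  choose b hb using fun e : ℕ => CC.act_length (g e).1 (g e).2
  refine ⟨fun e A x => CC.Acc (g e).1 (CC.cut ((b e).eval x.length) A) x, b, ?_, ?_⟩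
  · intro e A A' x h
    have hcut : CC.cut ((b e).eval x.length) A = CC.cut ((b e).eval x.length) A' := by
      funext z
      unfold CC.cut
      split_ifs with hz
      · exact h z hz
      · rfl
    simp only [hcut]
  · rintro A L ⟨M, p, hM⟩
    obtain ⟨e, he⟩ := hg (M, p)
    refine ⟨e, fun x => ?_⟩
    have hbe := hb e
    simp only [he] at hbe ⊢
    obtain ⟨hM1, s, z, hs, hz, hL⟩ := hM x
    have hcong : ∀ s, M.Reach (CC.cut ((b e).eval x.length) A) x s ↔ M.Reach A x s := by
      refine CC.reach_congr (fun s => s.length ≤ p.eval x.length) hM1 ?_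
      intro s q h1 h2
      have h3 := hbe x s h1
      rw [h2, List.length_cons] at h3
      unfold CC.cut
      rw [if_pos (by omega)]
    constructor
    · intro hx
      refine ⟨s, (hcong s).2 hs, ?_⟩
      rw [hz, hL.1 hx]
    · rintro ⟨t, ht, ht2⟩
      have hst := CC.reach_unique hs ((hcong t).1 ht) ⟨_, hz⟩ ⟨_, ht2⟩
      rw [hst, ht2] at hz
      simp only [List.cons.injEq, true_and] at hz
      exact hL.2 hz.symm

end Pool.Agent.H752.PL
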